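import Pool.Agent.MWV.Stmts

/-!
# MWV, row RH1: identity match at the ends (moved letter `x`, watched letter `x`)
-/

namespace Pool.Agent.MWV.H26

open Pool.Agent.Helper14_MV Pool.Agent.Helper2_MV
open Pool.Agent.MWV

theorem lgt_append (a b : List ℕ) : lgt (a ++ b) = lgt a ++ lgt b := List.filter_append ..

theorem lgt_heavy {s : List ℕ} (h : ∀ a ∈ s, a % 3 = 0) : lgt s = [] := by
  unfold lgt
  rw [List.filter_eq_nil_iff]
  intro a ha
  simp [h a ha]

theorem lgt_mk (g : ℕ → Bool) (j : ℕ) : lgt (mk g j) = [] := by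
  apply lgt_heavy
  intro a ha
  unfold mk at ha
  split_ifs at ha
  · rw [List.mem_singleton] at ha; omega
  · simp at ha

theorem lgt_single (e : ℕ) : lgt [3 * e + 1] = [3 * e + 1] := by
  unfold lgt
  rw [List.filter_cons_of_pos (by simp), List.filter_nil]

/-- the lights of a run -/
theorem lgt_cr (g : ℕ → Bool) {s : List ℕ} (hs : ∀ a ∈ s, a % 3 = 0) (d k : ℕ) :
    lgt (cr g s d k) = (List.range (k + 1)).map (fun i => 3 * (d + i) + 1) := by
  induction k with
  | zero =>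
    have : cr g s d 0 = [3 * d + 1] := rfl
    rw [this, lgt_single]; rfl
  | succ k ih =>
    have e : cr g s d (k + 1) = cr g s d k ++ (mk g (k + 1) ++ (s ++ [3 * (d + (k + 1)) + 1])) :=
      rfl
    rw [e, lgt_append, lgt_append, lgt_append, lgt_mk, lgt_heavy hs, lgt_single, ih,
      List.range_succ (n := k + 1), List.map_append]
    rfl

/-- splitting of a list at a letter of a filtered list -/
theorem filter_split {p : ℕ → Bool} {l l1 l2 : List ℕ} {x : ℕ} (h : l.filter p = l1 ++ x :: l2) :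
    ∃ u v, l = u ++ x :: v ∧ v.filter p = l2 := by
  obtain ⟨u1, u2, rfl, h1, h2⟩ := List.filter_eq_append_iff.1 h
  obtain ⟨w, v, rfl, -, -, h3⟩ := List.filter_eq_cons_iff.1 h2
  exact ⟨u1 ++ w, v, by simp, h3⟩

/-- splitting of the list of the first numbers -/
theorem map_range_split (F : ℕ → ℕ) {n a b : ℕ} (hab : b < a) (ha : a < n) :
    ∃ l1 l2, (List.range n).map F = l1 ++ F b :: l2 ∧ F a ∈ l2 := by
  obtain ⟨c, rfl⟩ : ∃ c, n = b + (c + 1) := ⟨n - b - 1, by omega⟩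
  rw [List.range_add, List.range_succ_eq_map, List.map_append, List.map_cons, List.map_cons]
  refine ⟨_, _, rfl, ?_⟩
  rw [List.mem_map]
  refine ⟨a, ?_, rfl⟩
  rw [List.mem_map]
  refine ⟨a - b, ?_, by omega⟩
  rw [List.mem_map]
  exact ⟨a - b - 1, List.mem_range.2 (by omega), by omega⟩

/-- the order of the lights in the instance -/
theorem key_ord (hO : OrdStmt) {N : ℕ} {S : List ℕ → List ℕ → Prop} {P Q : List ℕ}
    {g : ℕ → Bool} {k d : ℕ} {A B M : List ℕ} (hy : Hyp N S P Q g k) (hd : d ≤ 1)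
    (hS : S (Wb N P Q g k d) (W (PP k P) (PP k Q) (A ++ (M ++ B))))
    (hok : Ok (PP k P) (PP k Q) (A ++ (M ++ B))) {ζ : ℕ → ℕ} {n : ℕ}
    (hl : lgt M = (List.range n).map (fun i => 3 * ζ i + 1)) {a b : ℕ} (ha : a < n) (_hb : b < n)
    (hab : ζ a < ζ b) (hk : ζ b ≤ k + 2) (hm : ζ a ∈ PP k P ++ PP k Q)
    (hc : (ζ a ∈ PP k Q ↔ ζ b ∈ PP k Q) → ((ζ a ∈ PP k Q ↔ 0 ∈ PP k Q) ∨
      (ζ a ∈ PP k Q ↔ k + 2 ∈ PP k Q))) : a < b := by
  by_contra hn
  have hba : b < a := by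
    rcases Nat.lt_or_ge b a with h | h
    · exact h
    · have : a = b := le_antisymm h (not_lt.1 hn)
      rw [this] at hab
      exact absurd hab (lt_irrefl _)
  obtain ⟨l1, l2, h1, h2⟩ := map_range_split (fun i => 3 * ζ i + 1) hba ha
  rw [h1] at hl
  obtain ⟨u, v, hu, hv⟩ := filter_split hl
  have hmem : 3 * ζ a + 1 ∈ v := by
    have : 3 * ζ a + 1 ∈ v.filter (fun a => decide (a % 3 ≠ 0)) := by rw [hv]; exact h2
    exact (List.mem_filter.1 this).1
  have e : A ++ (M ++ B) = (A ++ u) ++ (3 * ζ b + 1) :: (v ++ B) := by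
    rw [hu]; simp
  rw [e] at hS
  have h3 := hO N S P Q g k d (ζ a) (ζ b) _ _ hy hd hab hk hc hS
  have h4 := hok.one _ hm
  have h5 : 0 < (A ++ u).count (3 * ζ a + 1) := List.count_pos_iff.2 h3
  have h6 : 0 < v.count (3 * ζ a + 1) := List.count_pos_iff.2 hmem
  rw [e] at h4
  simp only [List.count_append, List.count_cons] at h4 h5
  omega

theorem rh1 (h1 : PpmStmt) (_h2 : DcbStmt) (h3 : OrdStmt) (h4 : Cv2Stmt) : Rh1Stmt := by
  intro N S P Q g k f s α1 γ1 hy hs hF hS hall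
  have hk := hy.kp
  obtain ⟨hperm, hin, h0Q, hkQ⟩ := h1 k P Q hk hy.pm
  have hl : lgt (1 :: (X N 3 ++ cr g s 1 k)) =
      (List.range (k + 2)).map (fun i => 3 * (0 + i) + 1) := by
    have e1 : lgt (1 :: (X N 3 ++ cr g s 1 k)) = 1 :: lgt (X N 3 ++ cr g s 1 k) := by
      unfold lgt
      rw [List.filter_cons_of_pos (by decide)]
    rw [e1, lgt_append, lgt_heavy (s := X N 3) (fun a ha => by
      rw [List.eq_of_mem_replicate ha]), lgt_cr g hs, List.nil_append,
      List.range_succ_eq_map (n := k + 1), List.map_cons, List.map_map]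
    congr 1
    apply List.map_congr_left
    intro i _
    simp only [Function.comp_apply]
    omega
  obtain ⟨ζ, hζ, hlim, hsur, hinj⟩ := h4 N f k (PP k P) (PP k Q) 0 _ α1 γ1 0 0 hy.wo.pos hperm
    (Nat.zero_le _) (Nat.zero_le _) hF hl (fun i _ hi => hall i hi)
  have hm : ∀ i ≤ k + 2, i ∈ PP k P ++ PP k Q := fun i hi =>
    hperm.mem_iff.2 (List.mem_range.2 (by omega))
  obtain ⟨A, hA⟩ : ∃ A, A = α1 ++ im N f (X N 0) := ⟨_, rfl⟩
  obtain ⟨B, hB⟩ : ∃ B, B = im N f (X N 0) ++ γ1 := ⟨_, rfl⟩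
  have e : α1 ++ (im N f (X N 0) ++ (im N f (1 :: (X N 3 ++ cr g s 1 k)) ++
      (im N f (X N 0) ++ γ1))) = A ++ (im N f (1 :: (X N 3 ++ cr g s 1 k)) ++ B) := by
    rw [hA, hB]; simp only [List.append_assoc]
  have hok := hF.ok
  rw [e] at hS hok
  have key : ∀ a b, a < k + 2 → b < k + 2 → ζ a < ζ b →
      ((ζ a ∈ PP k Q ↔ ζ b ∈ PP k Q) → ((ζ a ∈ PP k Q ↔ 0 ∈ PP k Q) ∨
        (ζ a ∈ PP k Q ↔ k + 2 ∈ PP k Q))) → a < b := by
    intro a b ha hb hab hc
    have hb2 := (hζ b hb).2.2.2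
    have ha2 := (hζ a ha).2.2.2
    exact key_ord h3 hy (Nat.zero_le _) hS hok hlim ha hb hab (by omega) (hm _ (by omega)) hc
  have h1Q : 1 ∈ PP k Q ↔ 0 ∈ PP k Q := by
    rw [h0Q]; exact (hin 0 (Nat.zero_le _)).1
  have hkQ1 : k + 1 ∈ PP k Q ↔ k + 2 ∈ PP k Q := by
    rw [hkQ]; exact (hin k le_rfl).1
  -- the first light
  have z0 : ζ 0 = 0 := by
    by_contra hn
    obtain ⟨a, ha, hza⟩ := hsur 0 (Nat.zero_le _) (Nat.zero_le _)
    have hlt : ζ a < ζ 0 := by omega
    have := key a 0 ha (by omega) hlt (fun _ => Or.inl (by rw [hza]))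
    omega
  have z1 : ζ 1 = 1 := by
    by_contra hn
    have hn0 : ζ 1 ≠ 0 := by
      intro h
      have := hinj 1 (by omega) 0 (by omega) (by rw [h, z0])
      omega
    obtain ⟨a, ha, hza⟩ := hsur 1 (Nat.zero_le _) (by omega)
    have hlt : ζ a < ζ 1 := by omega
    have h5 := key a 1 ha (by omega) hlt (fun _ => Or.inl (by rw [hza]; exact h1Q))
    have : a = 0 := by omega
    rw [this, z0] at hza
    omega
  have zk : ζ (k + 1) = k + 1 := by
    by_contra hn
    have hle := (hζ (k + 1) (by omega)).2.2.2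
    obtain ⟨a, ha, hza⟩ := hsur (k + 1) (Nat.zero_le _) (by omega)
    have hlt : ζ (k + 1) < ζ a := by omega
    have h5 := key (k + 1) a (by omega) ha hlt (fun h => Or.inr (by
      rw [h, hza]; exact hkQ1))
    omega
  refine ⟨?_, ?_, ?_⟩
  · have := (hζ 0 (by omega)).1
    rw [z0] at this
    exact this
  · have := (hζ 1 (by omega)).1
    rw [z1] at this
    exact this
  · have := (hζ (k + 1) (by omega)).1
    rw [zk, Nat.zero_add] at this
    exact this

end Pool.Agent.MWV.H26
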