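import Pool.Agent.MWV.Stmts

/-!
# MWV, row SBW: the substitutions `fj` act on the places
-/

namespace Pool.Agent.MWV.H26

open Pool.Agent.Helper14_MV Pool.Agent.Helper2_MV
open Pool.Agent.MWV

theorem fj_light (jj : ℕ → Option ℕ) (hh : ℕ → List ℕ) (e : ℕ) :
    fj jj hh (3 * e + 1) = (jj e).elim [] (fun i => [3 * i + 1]) := by
  have h1 : (3 * e + 1) % 3 ≠ 0 := by omega
  have h2 : (3 * e + 1) % 3 = 1 := by omega
  have h3 : (3 * e + 1) / 3 = e := by omega
  unfold fj
  rw [if_neg h1, if_pos h2, h3]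

theorem fj_sep (jj : ℕ → Option ℕ) (hh : ℕ → List ℕ) (e : ℕ) :
    fj jj hh (3 * e + 8) = (jj e).elim [] (fun i => [3 * i + 8]) := by
  have h1 : (3 * e + 8) % 3 ≠ 0 := by omega
  have h2 : (3 * e + 8) % 3 ≠ 1 := by omega
  have h4 : ¬ (3 * e + 8 < 8) := by omega
  have h3 : (3 * e + 8 - 8) / 3 = e := by omega
  unfold fj
  rw [if_neg h1, if_neg h2, if_neg h4, h3]

theorem pl_fj (jj : ℕ → Option ℕ) (hh : ℕ → List ℕ) (P : List ℕ) :
    (pl P).flatMap (fj jj hh) = pl (P.filterMap jj) := by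
  induction P with
  | nil => rfl
  | cons e P ih =>
    have e1 : pl (e :: P) = (3 * e + 8) :: (3 * e + 1) :: pl P := rfl
    rw [e1, List.flatMap_cons, List.flatMap_cons, ih, fj_sep, fj_light]
    cases h : jj e with
    | none => rw [List.filterMap_cons_none h]; rfl
    | some i => rw [List.filterMap_cons_some h]; rfl

theorem pr_fj (jj : ℕ → Option ℕ) (hh : ℕ → List ℕ) (Q : List ℕ) :
    (pr Q).flatMap (fj jj hh) = pr (Q.filterMap jj) := by
  induction Q with
  | nil => rfl
  | cons e Q ih =>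
    have e1 : pr (e :: Q) = (3 * e + 1) :: (3 * e + 8) :: pr Q := rfl
    rw [e1, List.flatMap_cons, List.flatMap_cons, ih, fj_sep, fj_light]
    cases h : jj e with
    | none => rw [List.filterMap_cons_none h]; rfl
    | some i => rw [List.filterMap_cons_some h]; rfl

theorem sbw : SbwStmt := by
  intro jj hh P Q L
  have h2 : fj jj hh 2 = [2] := by simp [fj]
  have h5 : fj jj hh 5 = [5] := by simp [fj]
  unfold W
  rw [List.flatMap_append, List.flatMap_cons, List.flatMap_append, List.flatMap_cons, pl_fj,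
    pr_fj, h2, h5]
  rfl

end Pool.Agent.MWV.H26
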